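import Mathlib
import Pool.Agent.H56R2.CL.Simple
import Pool.Agent.H56R2.CL.AdDense
import Pool.Agent.H56R2.CL.AdCartan

/-!
A Zariski dense discrete subgroup of infinite covolume of a connected simple Lie group of real
rank two (the identity component of `SO(3,2)`) that contains a lattice of a Cartan subgroup.
-/

set_option autoImplicit false

open Matrix
open Pool.Agent.H56R2.CL

theorem Pool.Agent.Results.MP_450614_al.CartanLattice.result :
    ∃ (G Γ A : Subgroup (GL (Fin 5) ℝ)) (𝔤 : Submodule ℝ (Matrix (Fin 5) (Fin 5) ℝ))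
      (h : IsLieAlgebraOf 𝔤 G),
      IsSimpleLieGroup 𝔤 G ∧
      (IsCartanSubgroup G A ∧ IsAdCartanSubgroup h A ∧ IsVectorGroup A 2) ∧
      (IsDiscreteSubgroup G Γ ∧ ZariskiDense h Γ) ∧
      IsCocompactIn A Γ ∧
      (¬ HasFiniteInvariantMeasure G Γ ∧ ¬ HasFiniteCovolume G Γ) := by
  refine ⟨SO32, Gam, AA, so32, isLie, ⟨SO32_closed, SO32_connected, isLie, so32_simple⟩,
    ⟨AA_cartan, ⟨⟨AA_le, AA_connected, AA_ad_diag (fun Y hY => wedge_expand hY)⟩, AA_ad_max⟩,
      ⟨AA_equiv⟩⟩, ⟨⟨Gam_le, Gam_discrete⟩, zariski_dense⟩, cocompact,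
    ⟨no_finite_measure, no_finite_covolume⟩⟩
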